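import Pool.Agent.N718.LB.Stm

/-!
# Project LB (helper718), part INT (worker: helper896)
-/

set_option autoImplicit false

namespace Pool.Agent.N896.LB

open Pool.Agent.N718.LB Finset

theorem mem_V3 {H : ℕ} {v : Fin 3 → ℤ} (h : v ∈ V3 H) (i : Fin 3) : |(v i : ℝ)| ≤ H := by
  unfold V3 at h
  rw [Fintype.mem_piFinset] at h
  have := Finset.mem_Icc.1 (h i)
  rw [abs_le]
  constructor
  · exact_mod_cast this.1
  · exact_mod_cast this.2

theorem card_V3 (H : ℕ) : (V3 H).card = (2 * H + 1) ^ 3 := by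
  unfold V3
  rw [Fintype.card_piFinset]
  simp only [Int.card_Icc, prod_const, card_univ, Fintype.card_fin]
  congr 1
  omega

/-- the vectors with a coordinate equal to zero -/
noncomputable def V30 (i : Fin 3) (H : ℕ) : Finset (Fin 3 → ℤ) :=
  Fintype.piFinset (fun k => if k = i then {0} else Icc (-(H : ℤ)) H)

theorem card_V30 (i : Fin 3) (H : ℕ) : (V30 i H).card = (2 * H + 1) ^ 2 := by
  unfold V30
  rw [Fintype.card_piFinset]
  have h : ((H : ℤ) + 1 + H).toNat = 2 * H + 1 := by omega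
  fin_cases i <;> simp [Fin.prod_univ_three, Int.card_Icc, h, pow_two]

theorem update_mem {H : ℕ} {v : Fin 3 → ℤ} (h : v ∈ V3 H) (i : Fin 3) :
    Function.update v i 0 ∈ V30 i H := by
  unfold V3 at h
  unfold V30
  rw [Fintype.mem_piFinset] at h ⊢
  intro k
  by_cases hk : k = i
  · subst hk
    simp
  · rw [Function.update_of_ne hk, if_neg hk]
    exact h k

/-- a set of integers with small differences -/
theorem spread (S : Finset ℤ) (L : ℝ) (hL : 0 ≤ L)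
    (h : ∀ a ∈ S, ∀ b ∈ S, (b : ℝ) - a ≤ L) : S.card ≤ ⌊L⌋₊ + 1 := by
  rcases S.eq_empty_or_nonempty with hS | hS
  · rw [hS]; simp
  · have hsub : S ⊆ Icc (S.min' hS) (S.min' hS + (⌊L⌋₊ : ℤ)) := by
      intro b hb
      rw [Finset.mem_Icc]
      refine ⟨S.min'_le b hb, ?_⟩
      have h1 := h _ (S.min'_mem hS) b hb
      have h2 : ((b - S.min' hS : ℤ) : ℝ) ≤ L := by push_cast; exact h1
      have h3 : b - S.min' hS ≤ ⌊L⌋ := Int.le_floor.2 h2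
      have h4 : ((⌊L⌋₊ : ℕ) : ℤ) = ⌊L⌋ := Int.natCast_floor_eq_floor hL
      rw [h4]
      linarith
    refine (card_le_card hsub).trans ?_
    rw [Int.card_Icc]
    omega

theorem count1 (H : ℕ) (i : Fin 3) (L : ℝ) (hL : 0 ≤ L)
    (A : Finset ((Fin 3 → ℤ) × (Fin 3 → ℤ))) (hA : A ⊆ V3 H ×ˢ V3 H)
    (h : ∀ x ∈ A, ∀ y ∈ A, (∀ k, k ≠ i → x.1 k = y.1 k) → x.2 = y.2 →
      (y.1 i : ℝ) - x.1 i ≤ L) : (A.card : ℝ) ≤ (L + 1) * ((2 * H + 1 : ℕ) : ℝ) ^ 5 := by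
  classical
  have h1 : A.card ≤ (⌊L⌋₊ + 1) * (V30 i H ×ˢ V3 H).card := by
    refine Finset.card_le_mul_card_image_of_maps_to
      (f := fun x : (Fin 3 → ℤ) × (Fin 3 → ℤ) => (Function.update x.1 i 0, x.2)) ?_ _ ?_
    · intro x hx
      obtain ⟨h2, h3⟩ := mem_product.1 (hA hx)
      exact mem_product.2 ⟨update_mem h2 i, h3⟩
    · intro b _
      have hkey : ∀ x ∈ A.filter (fun x => (Function.update x.1 i 0, x.2) = b),
          ∀ y ∈ A.filter (fun x => (Function.update x.1 i 0, x.2) = b),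
          (∀ k, k ≠ i → x.1 k = y.1 k) ∧ x.2 = y.2 := by
        intro x hx y hy
        have h2 := (mem_filter.1 hx).2.trans (mem_filter.1 hy).2.symm
        have h3 := congrArg Prod.fst h2
        have h4 := congrArg Prod.snd h2
        simp only at h3 h4
        refine ⟨fun k hk => ?_, h4⟩
        have h5 := congrFun h3 k
        rwa [Function.update_of_ne hk, Function.update_of_ne hk] at h5
      have hinj : Set.InjOn (fun x : (Fin 3 → ℤ) × (Fin 3 → ℤ) => x.1 i)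
          (A.filter (fun x => (Function.update x.1 i 0, x.2) = b)) := by
        intro x hx y hy hxy
        obtain ⟨h2, h3⟩ := hkey x (mem_coe.1 hx) y (mem_coe.1 hy)
        refine Prod.ext (funext fun k => ?_) h3
        by_cases hk : k = i
        · rw [hk]; exact hxy
        · exact h2 k hk
      rw [← card_image_of_injOn hinj]
      refine spread _ L hL ?_
      intro a ha b' hb'
      obtain ⟨x, hx, rfl⟩ := mem_image.1 ha
      obtain ⟨y, hy, rfl⟩ := mem_image.1 hb'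
      obtain ⟨h2, h3⟩ := hkey x hx y hy
      exact h x (mem_filter.1 hx).1 y (mem_filter.1 hy).1 h2 h3
  rw [card_product, card_V30, card_V3] at h1
  have h2 : (A.card : ℝ) ≤ ((⌊L⌋₊ : ℝ) + 1) * (((2 * H + 1 : ℕ) : ℝ) ^ 2 *
      ((2 * H + 1 : ℕ) : ℝ) ^ 3) := by exact_mod_cast h1
  refine h2.trans ?_
  rw [← pow_add]
  have h3 : (⌊L⌋₊ : ℝ) ≤ L := Nat.floor_le hL
  have h4 : (0 : ℝ) ≤ ((2 * H + 1 : ℕ) : ℝ) ^ (2 + 3) := by positivity
  exact mul_le_mul_of_nonneg_right (by linarith) h4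

theorem count2 (H : ℕ) (i : Fin 3) (L : ℝ) (hL : 0 ≤ L)
    (A : Finset ((Fin 3 → ℤ) × (Fin 3 → ℤ))) (hA : A ⊆ V3 H ×ˢ V3 H)
    (h : ∀ x ∈ A, ∀ y ∈ A, (∀ k, k ≠ i → x.2 k = y.2 k) → x.1 = y.1 →
      (y.2 i : ℝ) - x.2 i ≤ L) : (A.card : ℝ) ≤ (L + 1) * ((2 * H + 1 : ℕ) : ℝ) ^ 5 := by
  classical
  have h1 := count1 H i L hL (A.image Prod.swap) (by
      intro x hx
      obtain ⟨y, hy, rfl⟩ := mem_image.1 hx
      obtain ⟨h2, h3⟩ := mem_product.1 (hA hy)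
      exact mem_product.2 ⟨h3, h2⟩) (by
      intro x hx y hy h2 h3
      obtain ⟨x', hx', rfl⟩ := mem_image.1 hx
      obtain ⟨y', hy', rfl⟩ := mem_image.1 hy
      exact h x' hx' y' hy' h2 h3)
  rwa [card_image_of_injective _ Prod.swap_injective] at h1

/-- the geometric part -/
theorem geo {δ : ℝ} (hδ : 0 < δ) (hδ1 : δ ≤ 1) {H : ℝ} (hH : 0 < H) (v w : Fin 3 → ℝ)
    (hv : ∀ i, |v i| ≤ H) (hw : ∀ i, |w i| ≤ H) (hw2 : ∀ i, δ * H < |w i|)
    (hvw : ∀ i j, i ≠ j → δ ^ 2 * H ^ 2 < |v i * w j - v j * w i|) (s t : ℝ)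
    (hst : ∀ i, 0 < s * (v i + w i * t)) :
    ∃ lo hi : ℝ, -(1 / δ + 1) ≤ lo ∧ lo + δ ^ 2 ≤ hi ∧ hi ≤ 1 / δ + 1 ∧
      ∀ u, lo < u → u < hi → ∀ i, 0 < s * (v i + w i * u) := by
  have hδH : 0 < δ * H := by positivity
  have hw0 : ∀ i, w i ≠ 0 := fun i h => by
    have := hw2 i
    rw [h, abs_zero] at this
    linarith
  obtain ⟨ρ, hρ⟩ : ∃ ρ : Fin 3 → ℝ, ∀ i, ρ i = -(v i / w i) := ⟨_, fun _ => rfl⟩
  have hfac : ∀ i u, v i + w i * u = w i * (u - ρ i) := by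
    intro i u
    rw [hρ]
    have := hw0 i
    field_simp
    ring
  have hρb : ∀ i, |ρ i| ≤ 1 / δ := by
    intro i
    rw [hρ, abs_neg, abs_div, div_le_div_iff₀ (abs_pos.2 (hw0 i)) hδ]
    have h1 := hv i
    have h2 := hw2 i
    nlinarith [abs_nonneg (v i)]
  have hρd : ∀ i j, i ≠ j → δ ^ 2 < |ρ i - ρ j| := by
    intro i j hij
    have e1 : ρ i - ρ j = -((v i * w j - v j * w i) / (w i * w j)) := by
      rw [hρ, hρ]
      have := hw0 i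
      have := hw0 j
      field_simp
      ring
    rw [e1, abs_neg, abs_div, lt_div_iff₀ (abs_pos.2 (mul_ne_zero (hw0 i) (hw0 j)))]
    have h1 : |w i * w j| ≤ H ^ 2 := by
      rw [abs_mul, pow_two]
      exact mul_le_mul (hw i) (hw j) (abs_nonneg _) hH.le
    have h2 : δ ^ 2 * |w i * w j| ≤ δ ^ 2 * H ^ 2 := mul_le_mul_of_nonneg_left h1 (by positivity)
    exact h2.trans_lt (hvw i j hij)
  have hne : ∀ i, ρ i ≠ t := by
    intro i h
    have := hst i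
    rw [hfac, h, sub_self, mul_zero, mul_zero] at this
    exact lt_irrefl _ this
  -- lo
  obtain ⟨lo, hlo1, hlo2, hlo3⟩ : ∃ lo : ℝ, (∀ i, ρ i < t → ρ i ≤ lo) ∧
      (lo = -(1 / δ + 1) ∨ ∃ i, ρ i < t ∧ lo = ρ i) ∧ -(1 / δ + 1) ≤ lo := by
    by_cases h : (univ.filter (fun i => ρ i < t)).Nonempty
    · obtain ⟨i, hi, hmax⟩ := Finset.exists_max_image _ ρ h
      refine ⟨ρ i, fun j hj => hmax j (mem_filter.2 ⟨mem_univ _, hj⟩),
        Or.inr ⟨i, (mem_filter.1 hi).2, rfl⟩, ?_⟩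
      have := (abs_le.1 (hρb i)).1
      linarith
    · refine ⟨-(1 / δ + 1), fun j hj => ?_, Or.inl rfl, le_rfl⟩
      exact absurd ⟨j, mem_filter.2 ⟨mem_univ _, hj⟩⟩ h
  obtain ⟨hi, hhi1, hhi2, hhi3⟩ : ∃ hi : ℝ, (∀ i, t < ρ i → hi ≤ ρ i) ∧
      (hi = 1 / δ + 1 ∨ ∃ i, t < ρ i ∧ hi = ρ i) ∧ hi ≤ 1 / δ + 1 := by
    by_cases h : (univ.filter (fun i => t < ρ i)).Nonempty
    · obtain ⟨i, hi, hmin⟩ := Finset.exists_min_image _ ρ h
      refine ⟨ρ i, fun j hj => hmin j (mem_filter.2 ⟨mem_univ _, hj⟩),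
        Or.inr ⟨i, (mem_filter.1 hi).2, rfl⟩, ?_⟩
      have := (abs_le.1 (hρb i)).2
      linarith
    · refine ⟨1 / δ + 1, fun j hj => ?_, Or.inl rfl, le_rfl⟩
      exact absurd ⟨j, mem_filter.2 ⟨mem_univ _, hj⟩⟩ h
  have hδ2 : δ ^ 2 ≤ 1 := pow_le_one₀ hδ.le hδ1
  have h1δ : 0 < 1 / δ := by positivity
  refine ⟨lo, hi, hlo3, ?_, hhi3, ?_⟩
  · rcases hlo2 with h1 | ⟨i, hi1, hi2⟩
    · rcases hhi2 with h2 | ⟨j, hj1, hj2⟩
      · rw [h1, h2]; linarith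
      · rw [h1, hj2]
        have := (abs_le.1 (hρb j)).1
        linarith
    · rcases hhi2 with h2 | ⟨j, hj1, hj2⟩
      · rw [hi2, h2]
        have := (abs_le.1 (hρb i)).2
        linarith
      · have hij : j ≠ i := by
          intro h
          rw [h] at hj1
          linarith
        have h3 := hρd j i hij
        rw [abs_of_pos (by linarith)] at h3
        rw [hi2, hj2]
        linarith
  · intro u hu1 hu2 i
    have h1 := hst i
    rw [hfac] at h1 ⊢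
    rcases lt_or_gt_of_ne (hne i) with h2 | h2
    · have h3 := hlo1 i h2
      have h4 : 0 < t - ρ i := by linarith
      have h5 : 0 < s * w i := by
        rw [← mul_assoc] at h1
        exact (pos_iff_pos_of_mul_pos h1).2 h4
      rw [← mul_assoc]
      exact mul_pos h5 (by linarith)
    · have h3 := hhi1 i h2
      have h4 : t - ρ i < 0 := by linarith
      have h5 : s * w i < 0 := by
        rw [← mul_assoc] at h1
        exact (neg_iff_neg_of_mul_pos h1).2 h4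
      rw [← mul_assoc]
      exact mul_pos_of_neg_of_neg h5 (by linarith)

theorem int_ : S_INT := by
  classical
  intro η hη
  obtain ⟨δ, hδ0, hδ1, hδη⟩ : ∃ δ : ℝ, 0 < δ ∧ δ ≤ 1 ∧ δ ≤ η / 20 :=
    ⟨min (η / 20) 1, lt_min (by positivity) one_pos, min_le_right _ _, min_le_left _ _⟩
  obtain ⟨h, hh⟩ : ∃ h : ℝ, h = δ ^ 2 / 4 := ⟨_, rfl⟩
  have hh0 : 0 < h := by rw [hh]; positivity
  obtain ⟨J, hJ⟩ : ∃ J : ℤ, J = ⌈(1 / δ + 1) / h⌉ := ⟨_, rfl⟩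
  obtain ⟨H₁, hH₁⟩ := exists_nat_gt (9 / η)
  refine ⟨(Icc (-J) J).image (fun j : ℤ => ((j : ℝ) * h, ((j : ℝ) + 1) * h)), H₁ + 1, ?_, ?_⟩
  · intro z hz
    obtain ⟨j, -, rfl⟩ := mem_image.1 hz
    show (j : ℝ) * h < ((j : ℝ) + 1) * h
    linarith
  intro H hH
  have hH0 : (0 : ℝ) < H := by exact_mod_cast (by omega : 0 < H)
  have hHη : 9 ≤ η * H := by
    have h1 : (H₁ : ℝ) ≤ H := by exact_mod_cast (by omega : H₁ ≤ H)
    rw [div_lt_iff₀ hη] at hH₁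
    nlinarith
  obtain ⟨B1, hB1⟩ : ∃ B1 : Fin 3 → Finset ((Fin 3 → ℤ) × (Fin 3 → ℤ)), ∀ i, B1 i =
    (V3 H ×ˢ V3 H).filter (fun v => |(v.2 i : ℝ)| ≤ δ * H) := ⟨_, fun _ => rfl⟩
  obtain ⟨B2, hB2⟩ : ∃ B2 : Fin 3 × Fin 3 → Finset ((Fin 3 → ℤ) × (Fin 3 → ℤ)), ∀ i, B2 i =
    (V3 H ×ˢ V3 H).filter (fun v => i.1 ≠ i.2 ∧ δ * H < |(v.2 i.2 : ℝ)| ∧
      |(v.1 i.1 : ℝ) * v.2 i.2 - v.1 i.2 * v.2 i.1| ≤ δ ^ 2 * (H : ℝ) ^ 2) := ⟨_, fun _ => rfl⟩
  have hL0 : 0 ≤ 2 * (δ * H) := by positivity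
  have hc1 : ∀ i, ((B1 i).card : ℝ) ≤ (2 * (δ * H) + 1) * ((2 * H + 1 : ℕ) : ℝ) ^ 5 := by
    intro i
    rw [hB1]
    refine count2 H i _ hL0 _ (filter_subset _ _) ?_
    intro x hx y hy _ _
    have h1 := abs_le.1 (mem_filter.1 hx).2
    have h2 := abs_le.1 (mem_filter.1 hy).2
    linarith [h1.1, h2.2]
  have hc2 : ∀ i, ((B2 i).card : ℝ) ≤ (2 * (δ * H) + 1) * ((2 * H + 1 : ℕ) : ℝ) ^ 5 := by
    rintro ⟨i, j⟩
    rw [hB2]
    refine count1 H i _ hL0 _ (filter_subset _ _) ?_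
    intro x hx y hy hxy1 hxy2
    obtain ⟨-, hij, h1, h2⟩ := mem_filter.1 hx
    obtain ⟨-, -, h3, h4⟩ := mem_filter.1 hy
    simp only at hij h1 h2 h3 h4
    have e1 : x.1 j = y.1 j := hxy1 j hij.symm
    rw [← hxy2, ← e1] at h4
    have h5 : |((y.1 i : ℝ) - x.1 i) * x.2 j| ≤ 2 * (δ ^ 2 * (H : ℝ) ^ 2) := by
      have : ((y.1 i : ℝ) - x.1 i) * x.2 j = ((y.1 i : ℝ) * x.2 j - x.1 j * x.2 i) -
        ((x.1 i : ℝ) * x.2 j - x.1 j * x.2 i) := by ring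
      rw [this]
      refine (abs_sub _ _).trans ?_
      linarith
    rw [abs_mul] at h5
    have h6 : |(y.1 i : ℝ) - x.1 i| * (δ * H) ≤ 2 * (δ ^ 2 * (H : ℝ) ^ 2) :=
      (mul_le_mul_of_nonneg_left h1.le (abs_nonneg _)).trans h5
    have h7 : |(y.1 i : ℝ) - x.1 i| ≤ 2 * (δ * H) := by
      have hpos : 0 < δ * (H : ℝ) := by positivity
      by_contra hcon
      have := mul_lt_mul_of_pos_right (not_le.1 hcon) hpos
      nlinarith
    exact (le_abs_self _).trans h7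
  have hsub : (V3 H ×ˢ V3 H).filter (fun v =>
      (∃ (s : ℤ) (t : ℝ), (s = 1 ∨ s = -1) ∧ ∀ i, 0 < (s : ℝ) * (v.1 i + v.2 i * t)) ∧
      ¬ ∃ z ∈ (Icc (-J) J).image (fun j : ℤ => ((j : ℝ) * h, ((j : ℝ) + 1) * h)),
        ∃ s : ℤ, (s = 1 ∨ s = -1) ∧
        ∀ i, ∀ t : ℝ, z.1 < t → t < z.2 → 0 < (s : ℝ) * (v.1 i + v.2 i * t)) ⊆
      univ.biUnion B1 ∪ univ.biUnion B2 := by
    intro v hv
    obtain ⟨hvV, ⟨s, t, hs, hst⟩, hno⟩ := mem_filter.1 hv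
    obtain ⟨hv1, hv2⟩ := mem_product.1 hvV
    by_cases hA : ∃ i, |(v.2 i : ℝ)| ≤ δ * H
    · obtain ⟨i, hi⟩ := hA
      refine mem_union_left _ (mem_biUnion.2 ⟨i, mem_univ _, ?_⟩)
      rw [hB1, mem_filter]
      exact ⟨hvV, hi⟩
    push Not at hA
    by_cases hB : ∃ i j, i ≠ j ∧ |(v.1 i : ℝ) * v.2 j - v.1 j * v.2 i| ≤ δ ^ 2 * (H : ℝ) ^ 2
    · obtain ⟨i, j, hij, hi⟩ := hB
      refine mem_union_right _ (mem_biUnion.2 ⟨(i, j), mem_univ _, ?_⟩)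
      rw [hB2, mem_filter]
      exact ⟨hvV, hij, hA j, hi⟩
    push Not at hB
    exfalso
    obtain ⟨lo, hi, h1, h2, h3, h4⟩ := geo hδ0 hδ1 hH0 (fun i => (v.1 i : ℝ))
      (fun i => (v.2 i : ℝ)) (mem_V3 hv1) (mem_V3 hv2) hA hB (s : ℝ) t hst
    apply hno
    obtain ⟨j, hj⟩ : ∃ j : ℤ, j = ⌈lo / h⌉ := ⟨_, rfl⟩
    have hj1 : lo ≤ j * h := by
      have := Int.le_ceil (lo / h)
      rw [← hj, div_le_iff₀ hh0] at this
      exact this
    have hj2 : j * h < lo + h := by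
      have := Int.ceil_lt_add_one (lo / h)
      rw [← hj, ← sub_lt_iff_lt_add, lt_div_iff₀ hh0] at this
      linarith
    have hj3 : ((j : ℝ) + 1) * h ≤ hi := by
      have : δ ^ 2 = 4 * h := by rw [hh]; ring
      linarith
    refine ⟨((j : ℝ) * h, ((j : ℝ) + 1) * h), mem_image.2 ⟨j, ?_, rfl⟩, s, hs, ?_⟩
    · have hJ1 : (1 / δ + 1) / h ≤ J := by rw [hJ]; exact Int.le_ceil _
      rw [div_le_iff₀ hh0] at hJ1
      rw [Finset.mem_Icc]
      constructor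
      · have : -(J : ℝ) ≤ j := by
          by_contra hcon
          have := mul_lt_mul_of_pos_right (not_le.1 hcon) hh0
          linarith
        exact_mod_cast this
      · have : (j : ℝ) ≤ J := by
          by_contra hcon
          have := mul_lt_mul_of_pos_right (not_le.1 hcon) hh0
          linarith
        exact_mod_cast this
    · intro i u hu1 hu2
      exact h4 u (lt_of_le_of_lt hj1 hu1) (lt_of_lt_of_le hu2 hj3) i
  have hfin := (card_le_card hsub).trans ((card_union_le _ _).trans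
    (Nat.add_le_add card_biUnion_le card_biUnion_le))
  have hfin' : (((V3 H ×ˢ V3 H).filter (fun v =>
      (∃ (s : ℤ) (t : ℝ), (s = 1 ∨ s = -1) ∧ ∀ i, 0 < (s : ℝ) * (v.1 i + v.2 i * t)) ∧
      ¬ ∃ z ∈ (Icc (-J) J).image (fun j : ℤ => ((j : ℝ) * h, ((j : ℝ) + 1) * h)),
        ∃ s : ℤ, (s = 1 ∨ s = -1) ∧
        ∀ i, ∀ t : ℝ, z.1 < t → t < z.2 → 0 < (s : ℝ) * (v.1 i + v.2 i * t))).card : ℝ) ≤
      ∑ i : Fin 3, ((B1 i).card : ℝ) + ∑ i : Fin 3 × Fin 3, ((B2 i).card : ℝ) := by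
    exact_mod_cast hfin
  have hs1 : ∑ i : Fin 3, ((B1 i).card : ℝ) ≤
      3 * ((2 * (δ * H) + 1) * ((2 * H + 1 : ℕ) : ℝ) ^ 5) := by
    refine (sum_le_sum fun i _ => hc1 i).trans ?_
    rw [sum_const, card_univ, Fintype.card_fin, nsmul_eq_mul]
    norm_num
  have hs2 : ∑ i : Fin 3 × Fin 3, ((B2 i).card : ℝ) ≤
      6 * ((2 * (δ * H) + 1) * ((2 * H + 1 : ℕ) : ℝ) ^ 5) := by
    have hdiag : ∀ i, B2 (i, i) = ∅ := by
      intro i
      rw [hB2, filter_eq_empty_iff]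
      rintro x _ ⟨h1, _⟩
      exact h1 rfl
    have e1 : ∑ i : Fin 3 × Fin 3, ((B2 i).card : ℝ) =
        ∑ i ∈ (univ : Finset (Fin 3 × Fin 3)).filter (fun i => i.1 ≠ i.2), ((B2 i).card : ℝ) := by
      symm
      refine sum_subset (filter_subset _ _) ?_
      rintro ⟨i, j⟩ _ hij
      have : i = j := by
        by_contra hne
        exact hij (mem_filter.2 ⟨mem_univ _, hne⟩)
      rw [this, hdiag]
      simp
    rw [e1]
    refine (sum_le_sum fun i _ => hc2 i).trans ?_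
    have : ((univ : Finset (Fin 3 × Fin 3)).filter (fun i => i.1 ≠ i.2)).card = 6 := by decide
    rw [sum_const, this, nsmul_eq_mul]
    norm_num
  have hX : (0 : ℝ) ≤ ((2 * H + 1 : ℕ) : ℝ) ^ 5 := by positivity
  have hfinal : 9 * (2 * (δ * H) + 1) ≤ η * ((2 * H + 1 : ℕ) : ℝ) := by
    push_cast
    have : δ * H ≤ η / 20 * H := mul_le_mul_of_nonneg_right hδη hH0.le
    nlinarith
  have hmul := mul_le_mul_of_nonneg_right hfinal hX
  have e2 : η * ((2 * H + 1 : ℕ) : ℝ) * ((2 * H + 1 : ℕ) : ℝ) ^ 5 =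
      η * ((2 * H + 1 : ℕ) : ℝ) ^ 6 := by ring
  rw [e2] at hmul
  have hall : (((V3 H ×ˢ V3 H).filter (fun v =>
      (∃ (s : ℤ) (t : ℝ), (s = 1 ∨ s = -1) ∧ ∀ i, 0 < (s : ℝ) * (v.1 i + v.2 i * t)) ∧
      ¬ ∃ z ∈ (Icc (-J) J).image (fun j : ℤ => ((j : ℝ) * h, ((j : ℝ) + 1) * h)),
        ∃ s : ℤ, (s = 1 ∨ s = -1) ∧
        ∀ i, ∀ t : ℝ, z.1 < t → t < z.2 → 0 < (s : ℝ) * (v.1 i + v.2 i * t))).card : ℝ) ≤
      η * ((2 * H + 1 : ℕ) : ℝ) ^ 6 := by linarith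
  convert hall

end Pool.Agent.N896.LB
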